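import Pool.Agent.J6H9.EU.Stm

/-!
# Project EU (MP_f6e960_lc): ideals without an increasing-invariant copy
-/

set_option autoImplicit false

namespace Pool.Agent.J6H45.EU

open Filter Topology Pool.Agent.J6H9.EU

private theorem st_succ (d : ℕ → ℕ) (n : ℕ) : st d (n + 1) = st d n + d n := by
  unfold st
  rw [Finset.sum_range_succ]

private theorem st_mono (d : ℕ → ℕ) : Monotone (st d) := by
  apply monotone_nat_of_le_succ
  intro n
  rw [st_succ]
  omega

private theorem le_st {d : ℕ → ℕ} (hd : ∀ n, 0 < d n) (n : ℕ) : n ≤ st d n := by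
  induction n with
  | zero => omega
  | succ n ih =>
    rw [st_succ]
    have := hd n
    omega

private theorem D_disj {d : ℕ → ℕ} {n n' x : ℕ} (h : x ∈ D d n) (h' : x ∈ D d n') : n = n' := by
  unfold D at h h'
  rw [Set.mem_Ico] at h h'
  rcases lt_trichotomy n n' with hlt | heq | hgt
  · have h1 := st_mono d (show n + 1 ≤ n' from hlt)
    rw [st_succ] at h1
    omega
  · exact heq
  · have h1 := st_mono d (show n' + 1 ≤ n from hgt)
    rw [st_succ] at h1
    omega

theorem main : S_UNI := by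
  classical
  intro hmed d hd hd' hK φ hinv
  choose N B C h1 h2 h3 h4 h5 h6 h7 using hmed d hd hd' hK φ
  obtain ⟨Ms, Ms_succ⟩ : ∃ Ms : ℕ → ℕ,
      ∀ k, Ms (k + 1) = max (Ms k) ((N k (Ms k)).sup id) + 1 :=
    ⟨fun k => Nat.rec 0 (fun k m => max m ((N k m).sup id) + 1) k, fun k => rfl⟩
  have hMs : StrictMono Ms := strictMono_nat_of_lt_succ fun k => by
    rw [Ms_succ]
    exact Nat.lt_succ_of_le (le_max_left _ _)
  have hN : ∀ k, ∀ n ∈ N k (Ms k), Ms k ≤ n ∧ n < Ms (k + 1) := by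
    intro k n hn
    refine ⟨h1 k (Ms k) n hn, ?_⟩
    rw [Ms_succ]
    apply Nat.lt_succ_of_le
    exact le_trans (Finset.le_sup (f := id) hn) (le_max_right _ _)
  have inB : ∀ j, ∀ x ∈ B j (Ms j), ∀ n, x ∈ D d n → Ms j ≤ n ∧ n < Ms (j + 1) := by
    intro j x hx n hn
    obtain ⟨n', hn', hx'⟩ := h2 j (Ms j) x hx
    rw [D_disj hn hx']
    exact hN j n' hn'
  have inC : ∀ j, ∀ x ∈ C j (Ms j), ∃ n, x ∈ D d n ∧ Ms j ≤ n := by
    intro j x hx
    obtain ⟨n', hn', hx'⟩ := h3 j (Ms j) x hx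
    exact ⟨n', hx', (hN j n' hn').1⟩
  have uniq : ∀ i j n, (Ms i ≤ n ∧ n < Ms (i + 1)) → (Ms j ≤ n ∧ n < Ms (j + 1)) → i = j := by
    intro i j n hi hj
    have e1 := hMs.lt_iff_lt.1 (lt_of_le_of_lt hi.1 hj.2)
    have e2 := hMs.lt_iff_lt.1 (lt_of_le_of_lt hj.1 hi.2)
    omega
  obtain ⟨BB, hBB⟩ : ∃ S : Set ℕ, S = {x | ∃ k, x ∈ B k (Ms k)} := ⟨_, rfl⟩
  obtain ⟨CC, hCC⟩ : ∃ S : Set ℕ, S = {x | ∃ k, x ∈ C k (Ms k)} := ⟨_, rfl⟩
  have hB : BB ∈ U d := by
    show Tendsto (fun n => ((BB ∩ D d n).ncard : ℝ) / d n) atTop (𝓝 0)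
    rw [Metric.tendsto_atTop]
    intro ε hε
    obtain ⟨k0, hk0⟩ := exists_nat_gt (2 / ε)
    refine ⟨Ms k0, fun n hn => ?_⟩
    have hdn : (0 : ℝ) < d n := by exact_mod_cast hd n
    rw [Real.dist_eq, sub_zero, abs_of_nonneg (by positivity)]
    rcases (BB ∩ D d n).eq_empty_or_nonempty with he | ⟨x, hxB, hx⟩
    · rw [he]
      simpa using hε
    · rw [hBB] at hxB
      obtain ⟨j, hj⟩ := hxB
      have hjn := inB j x hj n hx
      have hk0j : k0 ≤ j := by
        have := hMs.lt_iff_lt.1 (lt_of_le_of_lt hn hjn.2)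
        omega
      have hsub : BB ∩ D d n ⊆ (B j (Ms j) : Set ℕ) ∩ D d n := by
        rintro y ⟨hyB, hy⟩
        rw [hBB] at hyB
        obtain ⟨i, hi⟩ := hyB
        have hij : i = j := uniq i j n (inB i y hi n hy) hjn
        subst hij
        exact ⟨hi, hy⟩
      have hfin : ((B j (Ms j) : Set ℕ) ∩ D d n).Finite :=
        (Finset.finite_toSet _).subset Set.inter_subset_left
      have h8 : ((BB ∩ D d n).ncard : ℝ) ≤ 2 * d n / (j + 1) :=
        le_trans (by exact_mod_cast Set.ncard_le_ncard hsub hfin) (h6 j (Ms j) n)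
      have hkj : (k0 : ℝ) ≤ j := by exact_mod_cast hk0j
      calc ((BB ∩ D d n).ncard : ℝ) / d n ≤ (2 * d n / (j + 1)) / d n := by gcongr
        _ = 2 / (j + 1) := by field_simp
        _ ≤ 2 / (k0 + 1) := by gcongr
        _ < ε := by
          rw [div_lt_iff₀ (by positivity)]
          rw [div_lt_iff₀ hε] at hk0
          nlinarith
  have hC : CC ∉ U d := by
    intro hcon
    have hcon' : Tendsto (fun n => ((CC ∩ D d n).ncard : ℝ) / d n) atTop (𝓝 0) := hcon
    rw [Metric.tendsto_atTop] at hcon'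
    obtain ⟨n0, hn0⟩ := hcon' (1 / 2) (by norm_num)
    obtain ⟨m, hm, hm'⟩ := h7 n0 (Ms n0)
    have hm0 : n0 ≤ m := le_trans hMs.le_apply (hN n0 m hm).1
    have hdm : (0 : ℝ) < d m := by exact_mod_cast hd m
    have e1 := hn0 m hm0
    rw [Real.dist_eq, sub_zero, abs_of_nonneg (by positivity), div_lt_iff₀ hdm] at e1
    have hfin : (CC ∩ D d m).Finite := (Set.finite_Ico _ _).subset Set.inter_subset_right
    have hsub : (C n0 (Ms n0) : Set ℕ) ∩ D d m ⊆ CC ∩ D d m := by
      rintro y ⟨hy, hy'⟩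
      refine ⟨?_, hy'⟩
      rw [hCC]
      exact ⟨n0, hy⟩
    have e2 : (((C n0 (Ms n0) : Set ℕ) ∩ D d m).ncard : ℝ) ≤ ((CC ∩ D d m).ncard : ℝ) := by
      exact_mod_cast Set.ncard_le_ncard hsub hfin
    linarith
  have himg : ∀ (S : Set ℕ) (n : ℕ), (φ '' S ∩ Set.Iio n).ncard = {x | x ∈ S ∧ φ x < n}.ncard := by
    intro S n
    have e : φ '' S ∩ Set.Iio n = φ '' {x | x ∈ S ∧ φ x < n} := by
      ext y
      constructor
      · rintro ⟨⟨x, hx, rfl⟩, hy⟩
        exact ⟨x, ⟨hx, hy⟩, rfl⟩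
      · rintro ⟨x, ⟨hx, hy⟩, rfl⟩
        exact ⟨⟨x, hx, rfl⟩, hy⟩
    rw [e, Set.ncard_image_of_injective _ φ.injective]
  have hcount : ∀ n, (φ '' CC ∩ Set.Iio n).ncard ≤ (φ '' BB ∩ Set.Iio n).ncard := by
    intro n
    rw [himg, himg]
    have hfinall : {x | φ x < n}.Finite := by
      have e : {x | φ x < n} = φ ⁻¹' (Set.Iio n) := rfl
      rw [e]
      exact (Set.finite_Iio n).preimage φ.injective.injOn
    obtain ⟨X, hX⟩ := hfinall.bddAbove
    have s1 : {x | x ∈ CC ∧ φ x < n} ⊆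
        (((Finset.range (X + 1)).biUnion fun k => (C k (Ms k)).filter fun x => φ x < n : Finset ℕ) :
          Set ℕ) := by
      rintro x ⟨hx, hxn⟩
      rw [hCC] at hx
      obtain ⟨k, hk⟩ := hx
      have hxX : x ≤ X := hX hxn
      obtain ⟨m, hm, hm'⟩ := inC k x hk
      have hkm : k ≤ m := le_trans hMs.le_apply hm'
      have hmx : m ≤ x := le_trans (le_st hd m) hm.1
      simp only [Finset.coe_biUnion, Set.mem_iUnion]
      refine ⟨k, ?_, ?_⟩
      · simp only [Finset.coe_range, Set.mem_Iio]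
        omega
      · simp only [Finset.coe_filter]
        exact ⟨hk, hxn⟩
    have s2 : (((Finset.range (X + 1)).biUnion fun k => (B k (Ms k)).filter fun x => φ x < n :
        Finset ℕ) : Set ℕ) ⊆ {x | x ∈ BB ∧ φ x < n} := by
      intro x hx
      simp only [Finset.coe_biUnion, Set.mem_iUnion] at hx
      obtain ⟨k, -, hk⟩ := hx
      simp only [Finset.coe_filter] at hk
      refine ⟨?_, hk.2⟩
      rw [hBB]
      exact ⟨k, hk.1⟩
    have t1 : ∀ k, ((C k (Ms k)).filter fun x => φ x < n).card ≤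
        ((B k (Ms k)).filter fun x => φ x < n).card := by
      intro k
      rcases ((C k (Ms k)).filter fun x => φ x < n).eq_empty_or_nonempty with he | ⟨c, hc⟩
      · rw [he]
        simp
      · rw [Finset.mem_filter] at hc
        have e : ((B k (Ms k)).filter fun x => φ x < n) = B k (Ms k) := by
          rw [Finset.filter_eq_self]
          intro b hb
          exact lt_trans (h5 k (Ms k) b hb c hc.1) hc.2
        rw [e]
        exact le_trans (Finset.card_filter_le _ _) (h4 k (Ms k))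
    have t2 : ((Finset.range (X + 1)).biUnion fun k => (B k (Ms k)).filter fun x => φ x < n).card =
        ∑ k ∈ Finset.range (X + 1), ((B k (Ms k)).filter fun x => φ x < n).card := by
      apply Finset.card_biUnion
      intro i _ j _ hij
      show Disjoint ((B i (Ms i)).filter fun x => φ x < n) ((B j (Ms j)).filter fun x => φ x < n)
      rw [Finset.disjoint_left]
      intro x hx hx'
      rw [Finset.mem_filter] at hx hx'
      obtain ⟨m, hm, hm'⟩ := h2 i (Ms i) x hx.1
      exact hij (uniq i j m (inB i x hx.1 m hm') (inB j x hx'.1 m hm'))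
    calc {x | x ∈ CC ∧ φ x < n}.ncard ≤
        ((((Finset.range (X + 1)).biUnion fun k => (C k (Ms k)).filter fun x => φ x < n :
          Finset ℕ) : Set ℕ)).ncard := Set.ncard_le_ncard s1 (Finset.finite_toSet _)
      _ = ((Finset.range (X + 1)).biUnion fun k => (C k (Ms k)).filter fun x => φ x < n).card :=
          Set.ncard_coe_finset _
      _ ≤ ∑ k ∈ Finset.range (X + 1), ((C k (Ms k)).filter fun x => φ x < n).card :=
          Finset.card_biUnion_le
      _ ≤ ∑ k ∈ Finset.range (X + 1), ((B k (Ms k)).filter fun x => φ x < n).card :=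
          Finset.sum_le_sum fun k _ => t1 k
      _ = ((Finset.range (X + 1)).biUnion fun k => (B k (Ms k)).filter fun x => φ x < n).card :=
          t2.symm
      _ = ((((Finset.range (X + 1)).biUnion fun k => (B k (Ms k)).filter fun x => φ x < n :
          Finset ℕ) : Set ℕ)).ncard := (Set.ncard_coe_finset _).symm
      _ ≤ {x | x ∈ BB ∧ φ x < n}.ncard :=
          Set.ncard_le_ncard s2 (hfinall.subset fun x hx => hx.2)
  obtain ⟨A, hA, hA'⟩ := hinv (φ '' BB) ⟨BB, hB, rfl⟩ (φ '' CC) hcount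
  have hAC : A = CC := φ.injective.image_injective hA'
  rw [hAC] at hA
  exact hC hA

end Pool.Agent.J6H45.EU
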